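import Pool.Agent.X128.JI.G

/-!
# MP_0d30b1_gt : for n ≥ 3 only Cartan points can have a jet identification number

Everything is written in the standard (Kumpera-Rubin) charts of the Monster tower, see
`Pool/Agent/Results/MP_32880b_ag/MultiplicityWellDefined.lean` (`IsLift`, `value`, `IsCritical`,
`IsRegular`) and `Pool/Agent/X128/JI/F.lean` (`InGerm`, `RepEq`, `HasJetId`, `IsCartan`, `Adapted`).

Idea of the proof. Let `u` be the first base coordinate, `h + 1` the level where the base changes for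
the first time (it exists because the point is not Cartan), `X = z (h+1) x` the new base, `i` a third
index, `μ j` the order of the base on level `j`, `M = 1 + ∑_{h+2 ≤ j < k} μ j`, and let `r` be a jet
identification number.
* All germs `β + ε t^(r+1) e_i` belong to `Germ(p)`. Differentiating the family of lifts with respect
  to `ε` one finds, by downward induction on the level, that the normal part of the linearised lift
  vanishes to order `1 + ∑ μ`, and so `r + 1 ≥ (h+1) μ 0 + M + 1`.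
* Replacing `X` by `X + ε t^M` on level `h + 2`, without changing the slopes there, one gets germs of
  `Germ(p)` for all but finitely many `ε`. They all have the same `r`-jet up to reparametrisation.
  For two values of `ε` with the same leading coefficient of the parameter change, the slope `dU/dX`
  shows that the parameter changes agree to high order, and then the `t^M`-coefficients of `X` must
  agree, because `r + 1 > (h+1) μ 0 + M`. Contradiction.
-/

namespace Pool.Agent.Results.MP_0d30b1_gt.NoJetIdentification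

open PowerSeries
open Pool.Agent.Results.MP_32880b_ag.MultiplicityWellDefined
open Pool.Agent.X128.JI

/-- Every nonconstant germ can be prolonged in a chart adapted to its point. -/
theorem exists_adapted {n : ℕ} (γ : Fin n → ℂ⟦X⟧) (hγ : ∃ i, d⁄dX ℂ (γ i) ≠ 0) (k : ℕ) :
    ∃ (c : ℕ → Fin n) (z : ℕ → Fin n → ℂ⟦X⟧), IsLift c k γ z ∧ Adapted c (value z) k := by
  classical
  have step : ∀ (b0 : Fin n) (f : {f : Fin n → ℂ⟦X⟧ // ∃ i, d⁄dX ℂ (f i) ≠ 0}),
      ∃ (b : Fin n) (g : {g : Fin n → ℂ⟦X⟧ // ∃ i, d⁄dX ℂ (g i) ≠ 0}),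
        g.1 b = f.1 b ∧ d⁄dX ℂ (f.1 b) ≠ 0 ∧
          (∀ i, i ≠ b → d⁄dX ℂ (f.1 i) = g.1 i * d⁄dX ℂ (f.1 b)) ∧
          (b ≠ b0 → constantCoeff (g.1 b0) = 0) := by
    rintro b0 ⟨f, i0, hi0⟩
    obtain ⟨b1, -, hb1⟩ := Finset.exists_min_image Finset.univ
      (fun i => (d⁄dX ℂ (f i)).order) ⟨i0, Finset.mem_univ _⟩
    obtain ⟨b, hb, hbb⟩ : ∃ b, (∀ i, (d⁄dX ℂ (f b)).order ≤ (d⁄dX ℂ (f i)).order) ∧
        (b ≠ b0 → (d⁄dX ℂ (f b)).order < (d⁄dX ℂ (f b0)).order) := by
      by_cases h : (d⁄dX ℂ (f b0)).order ≤ (d⁄dX ℂ (f b1)).order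
      · exact ⟨b0, fun i => h.trans (hb1 i (Finset.mem_univ _)), fun h => absurd rfl h⟩
      · exact ⟨b1, fun i => hb1 i (Finset.mem_univ _), fun _ => not_le.mp h⟩
    have hb0 : d⁄dX ℂ (f b) ≠ 0 := by
      intro h
      have := hb i0
      rw [h, order_zero, top_le_iff, order_eq_top] at this
      exact hi0 this
    obtain ⟨u, hu, hub⟩ := exists_unit hb0
    obtain ⟨u', hu'⟩ := hu.exists_left_inv
    have hdiv : ∀ i, ∃ g : ℂ⟦X⟧, d⁄dX ℂ (f i) = g * d⁄dX ℂ (f b) := by
      intro i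
      by_cases hi : d⁄dX ℂ (f i) = 0
      · exact ⟨0, by rw [hi, zero_mul]⟩
      have h2 : (X : ℂ⟦X⟧) ^ (d⁄dX ℂ (f b)).order.toNat ∣ d⁄dX ℂ (f i) := by
        refine (pow_dvd_pow _ ?_).trans (X_pow_order_dvd (φ := d⁄dX ℂ (f i)))
        exact ENat.toNat_le_toNat (hb i) (fun h => hi (order_eq_top.mp h))
      obtain ⟨q, hq⟩ := h2
      refine ⟨q * u', ?_⟩
      rw [hq]
      linear_combination (-(q * u')) * hub - ((X : ℂ⟦X⟧) ^ (d⁄dX ℂ (f b)).order.toNat * q) * hu'
    choose g hg using hdiv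
    refine ⟨b, ⟨fun i => if i = b then f b else g i, b, by simpa using hb0⟩, by simp, hb0,
      fun i hi => by simpa [hi] using hg i, fun hne => ?_⟩
    simp only [if_neg (Ne.symm hne)]
    by_contra h0
    have h1 := hbb hne
    rw [hg b0, order_mul, order_of_ne h0, zero_add] at h1
    exact lt_irrefl _ h1
  choose B G hG using step
  obtain ⟨i0, -⟩ := id hγ
  let st : ℕ → Fin n × {f : Fin n → ℂ⟦X⟧ // ∃ i, d⁄dX ℂ (f i) ≠ 0} := fun j =>
    Nat.rec (i0, ⟨γ, hγ⟩) (fun _ s => (B s.1 s.2, G s.1 s.2)) j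
  refine ⟨fun j => B (st j).1 (st j).2, fun j => (st j).2.1, ⟨rfl, fun j _ => ?_, fun j _ => ?_,
    fun j _ => ?_⟩, fun j _ hne => ?_⟩
  · exact (hG (st j).1 (st j).2).1
  · exact (hG (st j).1 (st j).2).2.1
  · exact (hG (st j).1 (st j).2).2.2.1
  · exact (hG (st (j + 1)).1 (st (j + 1)).2).2.2.2 hne

/-- **For `n ≥ 3`, `k ≥ 2` no point of `P^k(n)` other than a Cartan point has a jet identification
number.** The second part says that every point lies in an adapted chart. -/
theorem result :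
    (∀ n ≥ 3, ∀ k ≥ 2, ∀ (c : ℕ → Fin n) (v : ℕ → Fin n → ℂ), Adapted c v k →
      ¬ IsCartan c v k → ∀ r, ¬ HasJetId c v k r) ∧
    (∀ n, ∀ (γ : Fin n → ℂ⟦X⟧), Nonconstant γ →
      ∀ k, ∃ (c : ℕ → Fin n) (z : ℕ → Fin n → ℂ⟦X⟧), IsLift c k γ z ∧ Adapted c (value z) k) := by
  refine ⟨fun n hn k hk c v hA hC r => main hn hk c v hA hC r, ?_⟩
  rintro n γ ⟨i, hi⟩ k
  refine exists_adapted γ ⟨i, fun h => hi ?_⟩ k
  have h1 := ord_eq (γ i)
  rw [h, order_zero] at h1
  unfold ord at h1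
  have h2 : (γ i - C (constantCoeff (γ i))).order = ⊤ := by rw [h1]; rfl
  exact sub_eq_zero.mp (order_eq_top.mp h2)

end Pool.Agent.Results.MP_0d30b1_gt.NoJetIdentification
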